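import Pool.Agent.helper89.PU.Spec1

/-!
# Row pv:PSH (MP_2e0e07_nt)
-/

set_option autoImplicit false

namespace Pool.Agent.PV

open Matrix Polynomial Pool.Agent.GO Pool.Agent.AR Pool.Agent.RG Pool.Agent.HZ Pool.Agent.DS
  Pool.Agent.AX Pool.Agent.UM Pool.Agent.PU MeasureTheory NumberField

theorem PSH_binom {A : Type*} [Ring A] (N : A) (k : ℕ) :
    ∃ Q : A, (1 + N) ^ k = 1 + (k : A) * N + N * N * Q := by
  induction k with
  | zero => exact ⟨0, by simp⟩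
  | succ k ih =>
    obtain ⟨Q, hQ⟩ := ih
    refine ⟨Q + (k : A) + Q * N, ?_⟩
    rw [pow_succ, hQ]
    have h1 : N * N * (k : A) = (k : A) * N * N := by
      rw [← Nat.cast_comm k (N * N), mul_assoc]
    push_cast
    simp only [mul_add, add_mul, mul_one, one_mul, h1, mul_assoc]
    abel

theorem PSH_step {p : ℕ} [Fact p.Prime] {m : Type} [Fintype m] [DecidableEq m] (s : ℕ) (hs : 2 ≤ s)
    (Y : Matrix m m ℤ_[p]) : ∃ Z : Matrix m m ℤ_[p],
    (1 + (p : ℤ_[p]) ^ s • Y) ^ p = 1 + (p : ℤ_[p]) ^ (s + 1) • (Y + (p : ℤ_[p]) • Z) := by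
  obtain ⟨Q, hQ⟩ := PSH_binom ((p : ℤ_[p]) ^ s • Y) p
  refine ⟨(p : ℤ_[p]) ^ (s - 2) • (Y * Y * Q), ?_⟩
  rw [hQ]
  obtain ⟨r, rfl⟩ : ∃ r, s = r + 2 := ⟨s - 2, by omega⟩
  have h1 : ((p : ℕ) : Matrix m m ℤ_[p]) * ((p : ℤ_[p]) ^ (r + 2) • Y) = (p : ℤ_[p]) ^ (r + 2 + 1) • Y := by
    rw [← nsmul_eq_mul, ← Nat.cast_smul_eq_nsmul ℤ_[p], smul_smul, pow_succ' _ (r + 2)]
  rw [h1, add_assoc, add_right_inj, smul_add, add_right_inj]
  simp only [Matrix.smul_mul, Matrix.mul_smul, smul_smul, Nat.add_sub_cancel]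
  congr 1
  ring

theorem PSH_pow {p : ℕ} [Fact p.Prime] {Γ m : Type} [Group Γ] [Fintype m] [DecidableEq m]
    (V : Γ →* Matrix m m ℤ_[p]) (h : Γ) (r : ℕ) (hr : 2 ≤ r) (Y : Matrix m m ℤ_[p])
    (hY : V h = 1 + (p : ℤ_[p]) ^ r • Y) (j : ℕ) : ∃ Z : Matrix m m ℤ_[p],
    V (h ^ p ^ j) = 1 + (p : ℤ_[p]) ^ (r + j) • (Y + (p : ℤ_[p]) • Z) := by
  induction j with
  | zero => exact ⟨0, by simpa using hY⟩
  | succ j ih =>
    obtain ⟨Z, hZ⟩ := ih
    obtain ⟨Z', hZ'⟩ := PSH_step (p := p) (r + j) (by omega) (Y + (p : ℤ_[p]) • Z)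
    refine ⟨Z + Z', ?_⟩
    rw [pow_succ, pow_mul, map_pow, hZ, hZ', ← add_assoc r j 1, smul_add (p : ℤ_[p]) Z Z', add_assoc Y]

theorem PSH : PSH_stmt := by
  intro p _ Γ K _ _ _ _ R G₁ κ hL m _ _ V r t R' hr hrt htR hyp b b' hb hb'
  haveI := ultra p K
  have hp0 : (0 : ℝ) < p := by exact_mod_cast (Fact.out : p.Prime).pos
  have hp1 : (1 : ℝ) ≤ p := by exact_mod_cast (Fact.out : p.Prime).one_lt.le
  have hb0 : 0 ≤ b := by
    have h1 : (1 : Γ) ∈ Lv V G₁ r := by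
      refine ⟨G₁.one_mem, fun i j => ?_⟩
      rw [map_one, sub_self]
      exact dvd_zero _
    have h2 := hb 1 h1
    rwa [map_one, nu_one] at h2
  have step : ∀ t, r ≤ t → t < R' → ∀ u ∈ Lv V G₁ t, ∃ u' ∈ Lv V G₁ (t + 1),
      nu (R u) ≤ max (nu (R u')) (b / p ^ (t - r)) := by
    intro t hrt htR u hu
    obtain ⟨h, hh, Y, Y', e1, e2, e3⟩ := hyp t hrt htR u hu
    obtain ⟨Z, hZ⟩ := PSH_pow V h r hr Y' e2 (t - r)
    rw [show r + (t - r) = t by omega] at hZ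
    have hz : nu (R (h ^ p ^ (t - r))) ≤ b / p ^ (t - r) := by
      rw [hL.pow h hh.1, Nat.cast_pow, norm_pow, norm_p p K, inv_pow, div_eq_mul_inv, mul_comm]
      exact mul_le_mul_of_nonneg_right (hb h hh) (by positivity)
    have hzG : h ^ p ^ (t - r) ∈ G₁ := G₁.pow_mem hh.1 _
    generalize h ^ p ^ (t - r) = z at hZ hz hzG
    refine ⟨u * z⁻¹, ⟨G₁.mul_mem hu.1 (G₁.inv_mem hzG), ?_⟩, ?_⟩
    · choose c hc using e3
      have h1 : Y - Y' = (p : ℤ_[p]) • (Matrix.of c) := by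
        ext i j
        rw [hc i j]
        rfl
      have h2 : V u - V z = (p : ℤ_[p]) ^ (t + 1) • (Matrix.of c - Z) := by
        rw [e1, hZ]
        have h3 : (1 + (p : ℤ_[p]) ^ t • Y) - (1 + (p : ℤ_[p]) ^ t • (Y' + (p : ℤ_[p]) • Z)) =
            (p : ℤ_[p]) ^ t • ((Y - Y') - (p : ℤ_[p]) • Z) := by
          rw [add_sub_add_left_eq_sub, ← smul_sub]
          congr 1
          abel
        rw [h3, h1, ← smul_sub, smul_smul, ← pow_succ]
      have h4 : V (u * z⁻¹) - 1 = (p : ℤ_[p]) ^ (t + 1) • ((Matrix.of c - Z) * V z⁻¹) := by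
        have h5 : V z * V z⁻¹ = 1 := by rw [← map_mul, mul_inv_cancel, map_one]
        rw [← Matrix.smul_mul, ← h2, Matrix.sub_mul, h5, map_mul]
      intro i j
      rw [h4]
      exact ⟨_, rfl⟩
    · have h1 := nu_rep_mul (R := R) hL.int (u * z⁻¹) z
      rw [inv_mul_cancel_right] at h1
      exact h1.trans (max_le_max le_rfl hz)
  have key : ∀ d t : ℕ, t + d + 1 = R' → r ≤ t → ∀ u ∈ Lv V G₁ t,
      nu (R u) ≤ max (b / p ^ (t - r)) b' := by
    intro d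
    induction d with
    | zero =>
      intro t htd hrt u hu
      obtain ⟨u', hu', h1⟩ := step t hrt (by omega) u hu
      have h2 : t + 1 = R' := by omega
      rw [h2] at hu'
      refine h1.trans (max_le ((hb' u' hu').trans (le_max_right _ _)) (le_max_left _ _))
    | succ d ih =>
      intro t htd hrt u hu
      obtain ⟨u', hu', h1⟩ := step t hrt (by omega) u hu
      have h2 := ih (t + 1) (by omega) (by omega) u' hu'
      have h3 : b / (p : ℝ) ^ (t + 1 - r) ≤ b / (p : ℝ) ^ (t - r) := by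
        apply div_le_div_of_nonneg_left hb0 (by positivity)
        exact pow_le_pow_right₀ hp1 (by omega)
      exact h1.trans (max_le (h2.trans (max_le_max h3 le_rfl)) (le_max_left _ _))
  obtain ⟨d, hd⟩ : ∃ d, t + d + 1 = R' := ⟨R' - t - 1, by omega⟩
  exact key d t hd hrt

end Pool.Agent.PV
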